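import Pool.Agent.Y581.WN.StmB

set_option autoImplicit false

/-!
# The truth of the hidden instances
-/

namespace Pool.Agent.Y953.WN

open Pool.Agent.NPC Pool.Agent.H622R2 Pool.Agent.H620R2.Gauge Pool.Agent.TH678.GC
  Pool.Agent.H591R3.PHG Pool.Agent.TH678.RS Pool.Agent.H622R2.Exp Pool.Agent.Y626.WG
  Pool.Agent.Y581.WN

theorem length_labn (n c ν j i : ℕ) : (labn n c ν j i).length = n + 1 + c + ν := by
  unfold labn
  rw [List.length_append, List.length_replicate, List.length_cons, List.length_append,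
    length_bitsOf, length_bitsOf]
  ring

theorem length_flatn (n c ν j : ℕ) (v : List ℕ) :
    (v.flatMap (labn n c ν j)).length = v.length * (n + 1 + c + ν) := by
  induction v with
  | nil => simp
  | cons a v ih =>
    rw [List.flatMap_cons, List.length_append, length_labn, ih, List.length_cons]
    ring

theorem labn_inj {n c ν j j' i i' : ℕ} (hj : j < 2 ^ c) (hj' : j' < 2 ^ c) (hi : i < 2 ^ ν)
    (hi' : i' < 2 ^ ν) (h : labn n c ν j i = labn n c ν j' i') : j = j' ∧ i = i' := by
  unfold labn at h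
  have h1 := List.append_cancel_left h
  have h2 := (List.cons.inj h1).2
  obtain ⟨h4, h5⟩ := List.append_inj h2 (by rw [length_bitsOf, length_bitsOf])
  exact ⟨bitsOf_inj hj hj' h4, bitsOf_inj hi hi' h5⟩

theorem flatn_inj {n c ν : ℕ} : ∀ {v v' : List ℕ} {j j' : ℕ}, v ≠ [] → (∀ x ∈ v, x < 2 ^ ν) →
    (∀ x ∈ v', x < 2 ^ ν) → j < 2 ^ c → j' < 2 ^ c →
    v.flatMap (labn n c ν j) = v'.flatMap (labn n c ν j') → j = j' ∧ v = v'
  | [], _, _, _, h, _, _, _, _, _ => absurd rfl h
  | a :: v, [], j, j', _, _, _, _, _, h => by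
    have h1 := congrArg List.length h
    rw [length_flatn, length_flatn, List.length_cons, List.length_nil, zero_mul] at h1
    have : 0 < (v.length + 1) * (n + 1 + c + ν) := by positivity
    omega
  | a :: v, a' :: v', j, j', _, hv, hv', hj, hj', h => by
    rw [List.flatMap_cons, List.flatMap_cons] at h
    obtain ⟨h1, h2⟩ := List.append_inj h (by rw [length_labn, length_labn])
    obtain ⟨rfl, rfl⟩ := labn_inj hj hj' (hv a (List.mem_cons_self ..))
      (hv' a' (List.mem_cons_self ..)) h1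
    refine ⟨rfl, ?_⟩
    rcases v with _ | ⟨b, v⟩
    · rcases v' with _ | ⟨b', v'⟩
      · rfl
      · have h3 := congrArg List.length h2
        rw [length_flatn, length_flatn, List.length_cons, List.length_nil, zero_mul] at h3
        have : 0 < (v'.length + 1) * (n + 1 + c + ν) := by positivity
        omega
    · have h6 := flatn_inj (v := b :: v) (v' := v') (j := j) (j' := j) (List.cons_ne_nil _ _)
        (fun x hx => hv x (List.mem_cons_of_mem _ hx))
        (fun x hx => hv' x (List.mem_cons_of_mem _ hx)) hj hj h2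
      rw [h6.2]

theorem sm_length {rest y : List ℕ} (h : Sm rest y) : y.length = rest.length := by
  induction rest generalizing y with
  | nil => cases y with
    | nil => rfl
    | cons a y => exact absurd h (by simp [Sm])
  | cons r rs ih => cases y with
    | nil => exact absurd h (by simp [Sm])
    | cons a y => rw [List.length_cons, List.length_cons, ih h.2]

theorem smLt {ν : ℕ} {rest y : List ℕ} (h : Sm rest y) (hr : ∀ a ∈ rest, a ≤ ν) :
    ∀ x ∈ y, x < 2 ^ ν := by
  induction rest generalizing y with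
  | nil => cases y with
    | nil => simp
    | cons a y => exact absurd h (by simp [Sm])
  | cons r rs ih => cases y with
    | nil => simp
    | cons a y =>
      intro x hx
      rcases List.mem_cons.1 hx with rfl | hx
      · exact lt_of_lt_of_le h.1 (Nat.pow_le_pow_right (by norm_num) (hr r (List.mem_cons_self ..)))
      · exact ih h.2 (fun a ha => hr a (List.mem_cons_of_mem _ ha)) x hx

section

variable {n k c ν τ s : ℕ} {S : ℕ → List ℕ} {r : ℕ} {rs : List ℕ}

theorem leaf_unique (hS : Sel k ν τ S) (hk : 1 ≤ k) {rest : List ℕ} (hr : ∀ a ∈ rest, a ≤ ν)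
    {q : List Bool} {p p' : ℕ × ℕ × List ℕ} (h : IsLeafk n c ν τ rest S q p)
    (h' : IsLeafk n c ν τ rest S q p') : p = p' := by
  obtain ⟨h1, h2, h3, h4⟩ := h
  obtain ⟨h1', h2', h3', h4'⟩ := h'
  have t1 := hS.tup _ h2
  have t2 := hS.tup _ h2'
  obtain ⟨h5, h6⟩ := flatn_inj (n := n) (c := c) (ν := ν) (v := S p.2.1 ++ p.2.2)
    (v' := S p'.2.1 ++ p'.2.2) (by
      intro h0
      have := congrArg List.length h0
      rw [List.length_append, t1.1, List.length_nil] at this
      omega) (by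
      intro x hx
      rcases List.mem_append.1 hx with hx | hx
      · exact t1.2 x hx
      · exact smLt h3 hr x hx) (by
      intro x hx
      rcases List.mem_append.1 hx with hx | hx
      · exact t2.2 x hx
      · exact smLt h3' hr x hx) h1 h1' (h4.symm.trans h4')
  obtain ⟨h7, h8⟩ := List.append_inj h6 (by rw [t1.1, t2.1])
  exact Prod.ext h5 (Prod.ext (hS.inj _ h2 _ h2' h7) h8)

theorem kp_lt (e : ℕ) : kp ν e < 2 ^ ν := by
  unfold kp
  have : 0 < 2 ^ ν := by positivity
  omega

theorem kp_ge {e : ℕ} (he : e < s) (hs : 2 ^ r + s ≤ 2 ^ ν) : 2 ^ r ≤ kp ν e := by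
  unfold kp
  omega

/-- a question for a position of a key is not a question for a leaf -/
theorem not_leaf (hS : Sel k ν τ S) (hr : ∀ a ∈ r :: rs, a ≤ ν)
    (hs : 2 ^ r + s ≤ 2 ^ ν) {w : List ℕ} (hw : Tup (2 ^ ν) k w) {e j : ℕ} (he : e < s)
    (hj : j < 2 ^ c) :
    ¬ ∃ p, IsLeafk n c ν τ (r :: rs) S ((w ++ [kp ν e]).flatMap (labn n c ν j)) p := by
  rintro ⟨p, h1, h2, h3, h4⟩
  have t1 := hS.tup _ h2
  obtain ⟨-, h6⟩ := flatn_inj (n := n) (c := c) (ν := ν) (v := w ++ [kp ν e])
    (v' := S p.2.1 ++ p.2.2) (by simp) (by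
      intro x hx
      rcases List.mem_append.1 hx with hx | hx
      · exact hw.2 x hx
      · rw [List.mem_singleton.1 hx]
        exact kp_lt e) (by
      intro x hx
      rcases List.mem_append.1 hx with hx | hx
      · exact t1.2 x hx
      · exact smLt h3 hr x hx) hj h1 h4
  obtain ⟨-, h8⟩ := List.append_inj h6 (by rw [hw.1, t1.1])
  rw [← h8] at h3
  have h9 : kp ν e < 2 ^ r := h3.1
  have := kp_ge he hs
  omega

theorem key_unique {w : List ℕ} (hw : Tup (2 ^ ν) k w) {e j : ℕ} (he : e < s)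
    (hs : s ≤ 2 ^ ν) (hj : j < 2 ^ c) (hS : Sel k ν τ S) {p : ℕ × ℕ × ℕ}
    (h : IsKeyk n c ν τ s S ((w ++ [kp ν e]).flatMap (labn n c ν j)) p) :
    p.1 = j ∧ S p.2.1 = w ∧ p.2.2 = e := by
  obtain ⟨h1, h2, h3, h4⟩ := h
  have t1 := hS.tup _ h2
  obtain ⟨h5, h6⟩ := flatn_inj (n := n) (c := c) (ν := ν) (v := w ++ [kp ν e])
    (v' := S p.2.1 ++ [kp ν p.2.2]) (by simp) (by
      intro x hx
      rcases List.mem_append.1 hx with hx | hx
      · exact hw.2 x hx
      · rw [List.mem_singleton.1 hx]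
        exact kp_lt e) (by
      intro x hx
      rcases List.mem_append.1 hx with hx | hx
      · exact t1.2 x hx
      · rw [List.mem_singleton.1 hx]
        exact kp_lt _) hj h1 h4
  obtain ⟨h7, h8⟩ := List.append_inj h6 (by rw [hw.1, t1.1])
  refine ⟨h5.symm, h7.symm, ?_⟩
  have h9 : kp ν e = kp ν p.2.2 := (List.cons.inj h8).1
  unfold kp at h9
  omega

variable {B : Oracle} {κ : ℕ → ℕ → Bool} {f : List Bool → Bool}

theorem orck_leaf (hS : Sel k ν τ S) (hk : 1 ≤ k) {rest : List ℕ} (hr : ∀ a ∈ rest, a ≤ ν)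
    {q : List Bool} {p : ℕ × ℕ × List ℕ} (h : IsLeafk n c ν τ rest S q p) :
    orck B n c ν τ s rest S κ f q =
      (f (bitsOf c p.1 ++ bitsOf τ p.2.1 ++ path rest p.2.2) == !(fl rest.length false)) := by
  have hex : ∃ p, IsLeafk n c ν τ rest S q p := ⟨p, h⟩
  unfold orck
  rw [dif_pos hex]
  have hp : hex.choose = p := leaf_unique hS hk hr hex.choose_spec h
  rw [hp]

theorem orck_key (hS : Sel k ν τ S) (hr : ∀ a ∈ r :: rs, a ≤ ν)
    (hs : 2 ^ r + s ≤ 2 ^ ν) {i e j : ℕ} (hi : i < 2 ^ τ) (he : e < s) (hj : j < 2 ^ c) :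
    orck B n c ν τ s (r :: rs) S κ f ((S i ++ [kp ν e]).flatMap (labn n c ν j)) = κ j e := by
  have t1 := hS.tup _ hi
  have hex : ∃ p, IsKeyk n c ν τ s S ((S i ++ [kp ν e]).flatMap (labn n c ν j)) p :=
    ⟨(j, i, e), hj, hi, he, rfl⟩
  unfold orck
  rw [dif_neg (not_leaf hS hr hs t1 he hj), dif_pos hex]
  obtain ⟨e1, -, e3⟩ := key_unique t1 he (le_trans (Nat.le_add_left s (2 ^ r)) hs) hj hS hex.choose_spec
  rw [e1, e3]

theorem orck_off (hS : Sel k ν τ S) (hr : ∀ a ∈ r :: rs, a ≤ ν)
    (hs : 2 ^ r + s ≤ 2 ^ ν) {w : List ℕ} (hw : Tup (2 ^ ν) k w) (hne : ∀ i < 2 ^ τ, S i ≠ w)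
    {e j : ℕ} (he : e < s) (hj : j < 2 ^ c) :
    orck B n c ν τ s (r :: rs) S κ f ((w ++ [kp ν e]).flatMap (labn n c ν j)) =
      B ((w ++ [kp ν e]).flatMap (labn n c ν j)) := by
  have hex : ¬ ∃ p, IsKeyk n c ν τ s S ((w ++ [kp ν e]).flatMap (labn n c ν j)) p := by
    rintro ⟨p, hp⟩
    have h2 := hp.2.1
    obtain ⟨-, e2, -⟩ := key_unique hw he (le_trans (Nat.le_add_left s (2 ^ r)) hs) hj hS hp
    exact hne _ h2 e2
  unfold orck
  rw [dif_neg (not_leaf hS hr hs hw he hj), dif_neg hex]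

end

/-- quantifiers over small numbers and the tree of NOR gates -/
theorem alt_up {A : Oracle} {lab : ℕ → List Bool} {f : List Bool → Bool} :
    ∀ (rest : List ℕ) (b : Bool) (p : List Bool) (v : List ℕ),
      (∀ y : List ℕ, Sm rest y →
        (A ((v ++ y).flatMap lab) = true ↔ f (p ++ path rest y) = !(fl rest.length b))) →
      (Alt A lab b rest v ↔ rest.foldr up f p = !b)
  | [], b, p, v, hP => by
    have h1 := hP [] trivial
    rw [List.append_nil] at h1
    have h2 : Alt A lab b [] v ↔ A (v.flatMap lab) = true := by cases b <;> exact Iff.rfl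
    rw [h2, h1]
    simp only [path, List.append_nil, List.length_nil, fl, List.foldr_nil]
  | a :: rest, b, p, v, hP => by
    have ih : ∀ x < 2 ^ a, (Alt A lab (!b) rest (v ++ [x]) ↔
        rest.foldr up f (p ++ bitsOf a x) = !(!b)) := by
      intro x hx
      refine alt_up rest (!b) (p ++ bitsOf a x) (v ++ [x]) ?_
      intro y hy
      have h1 := hP (x :: y) ⟨hx, hy⟩
      rw [List.append_assoc, List.singleton_append, List.append_assoc]
      exact h1
    rw [List.foldr_cons]
    cases b with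
    | true =>
      show (∃ x < 2 ^ a, Alt A lab false rest (v ++ [x])) ↔ _
      have h3 : (∃ x < 2 ^ a, Alt A lab false rest (v ++ [x])) ↔
          ∃ x < 2 ^ a, rest.foldr up f (p ++ bitsOf a x) = true := by
        refine exists_congr fun x => and_congr_right fun hx => ?_
        exact ih x hx
      rw [h3, Bool.not_true, ← Bool.not_eq_true, up_iff le_rfl]
      push Not
      refine exists_congr fun x => and_congr_right fun _ => ?_
      rw [ne_eq, Bool.not_eq_false]
    | false =>
      show (∀ x < 2 ^ a, Alt A lab true rest (v ++ [x])) ↔ _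
      have h3 : (∀ x < 2 ^ a, Alt A lab true rest (v ++ [x])) ↔
          ∀ x < 2 ^ a, rest.foldr up f (p ++ bitsOf a x) = false := by
        refine forall_congr' fun x => imp_congr_right fun hx => ?_
        exact ih x hx
      rw [h3, Bool.not_false, up_iff le_rfl]

theorem t_hidk (hsat : S_satk) : S_hidk := by
  intro B n k c ν τ j S hS hk hj r rs s κ hr hs hB f
  rw [hsat _ n k c ν j r rs s (κ j) hr hs]
  have hup : ∀ i < 2 ^ τ, (Alt (orck B n c ν τ s (r :: rs) S κ f) (labn n c ν j) false (r :: rs)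
      (S i) ↔ (r :: rs).foldr up f (bitsOf c j ++ bitsOf τ i) = true) := by
    intro i hi
    refine alt_up (r :: rs) false (bitsOf c j ++ bitsOf τ i) (S i) fun y hy => ?_
    have hleaf : IsLeafk n c ν τ (r :: rs) S ((S i ++ y).flatMap (labn n c ν j)) (j, i, y) :=
      ⟨hj, hi, hy, rfl⟩
    rw [orck_leaf hS hk hr hleaf]
    dsimp only
    rw [beq_iff_eq]
  rw [List.foldr_cons, ← Bool.not_eq_true]
  have e1 : up τ ((r :: rs).foldr up f) (bitsOf c j) = true ↔
      ∀ i < 2 ^ τ, (r :: rs).foldr up f (bitsOf c j ++ bitsOf τ i) = false := by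
    unfold up
    rw [decide_eq_true_iff]
  rw [e1]
  push Not
  constructor
  · rintro ⟨w, hw, h2, h3⟩
    by_contra hcon
    push Not at hcon
    refine hB w hw fun e he => ?_
    rw [← h2 e he]
    refine (orck_off hS hr hs hw ?_ he hj).symm
    rintro i hi rfl
    have h4 := (hup i hi).1 h3
    have h5 := hcon i hi
    rw [h4] at h5
    exact Bool.true_eq_false.mp h5
  · rintro ⟨i, hi, h1⟩
    refine ⟨S i, hS.tup i hi, fun e he => orck_key hS hr hs hi he hj, (hup i hi).2 ?_⟩
    simpa using h1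

end Pool.Agent.Y953.WN
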