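import Pool.Agent.Y581.WN.StmS
import Pool.Agent.Y626.WC.Core

set_option autoImplicit false

/-!
# The error of a reduction depends on strings of polynomial length only
-/

namespace Pool.Agent.Y953.WN

open Pool.Agent.NPC Pool.Agent.H622R2 Pool.Agent.H620R2.Gauge Pool.Agent.TH678.GC
  Pool.Agent.H591R3.PHG Pool.Agent.TH678.RS Pool.Agent.H622R2.Exp Pool.Agent.Y626.WG

theorem sat_congr (I : Inst) {A A' : Oracle}
    (h : ∀ q : List Bool, q.length ≤ (bits I).length ^ 2 → A q = A' q) :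
    I.Sat A ↔ I.Sat A' := by
  unfold Inst.Sat
  refine holds_congr (fun v => ?_) _ _ _
  have h3 : I.atoms.map (I.atom A v) = I.atoms.map (I.atom A' v) := by
    refine List.map_congr_left fun a ha => ?_
    obtain ⟨r, l⟩ := a
    cases r with
    | zero => exact h _ (Pool.Agent.Y626.WC.flat_len I ha v)
    | succ r => rfl
  rw [h3]

theorem t_loc : Pool.Agent.Y581.WN.S_loc := by
  intro t M σ G a
  obtain ⟨qb, hqb⟩ := M.out_local
  obtain ⟨bo, hbo⟩ := M.out_length
  refine ⟨qb.comp (a + Polynomial.C (2 * σ.length + 1)) +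
    (bo.comp (a + Polynomial.C (2 * σ.length + 1))) ^ 2 + a ^ 2, fun n x B' B'' hx hB hbad => ?_⟩
  have hev : (qb.comp (a + Polynomial.C (2 * σ.length + 1)) +
      (bo.comp (a + Polynomial.C (2 * σ.length + 1))) ^ 2 + a ^ 2).eval n =
      qb.eval (a.eval n + (2 * σ.length + 1)) + (bo.eval (a.eval n + (2 * σ.length + 1))) ^ 2 +
        (a.eval n) ^ 2 := by
    simp
  rw [hev] at hB
  have hlen : (pairBits σ (bits x)).length ≤ a.eval n + (2 * σ.length + 1) := by
    rw [length_pairBits]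
    omega
  have hq := Pool.Agent.NPC.eval_mono qb hlen
  have hb := Pool.Agent.NPC.eval_mono bo hlen
  rintro ⟨I, h1, h2, h3, h4⟩
  obtain ⟨Q, -, hQ2, hQ3⟩ := hqb B' (pairBits σ (bits x))
  have hout := hQ3 B'' fun q hq' => hB q ((hQ2 q hq').trans (by omega))
  rw [hout] at h1
  have hI := (hbo B' _ _ h1).trans hb
  have hI2 : (bits I).length ^ 2 ≤ (bo.eval (a.eval n + (2 * σ.length + 1))) ^ 2 :=
    Nat.pow_le_pow_left hI 2
  have hx2 : (bits x).length ^ 2 ≤ (a.eval n) ^ 2 := Nat.pow_le_pow_left hx 2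
  refine hbad ⟨I, h1, h2, h3, ?_⟩
  rw [sat_congr x (A := B') (A' := B'') fun q hq' => (hB q (by omega)).symm,
    sat_congr I (A := B') (A' := B'') fun q hq' => (hB q (by omega)).symm]
  exact h4

end Pool.Agent.Y953.WN
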